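import Pool.Agent.H25.CT.Red

set_option autoImplicit false
set_option linter.unusedSectionVars false

namespace Pool.Agent.H25.CT

open Finset Pool.Agent.Results.MP_974a61_co.CyclicExchange

/-- the edge `e` has exactly one end in `S` -/
def Crosses {V E : Type} (s t : E → V) (S : Finset V) (e : E) : Prop :=
  (s e ∈ S ∧ t e ∉ S) ∨ (s e ∉ S ∧ t e ∈ S)

variable {V E : Type} [Fintype V] [DecidableEq V] [DecidableEq E]

lemma phi_noncross {s t : E → V} {S : Finset V} {e : E} (h : ¬ Crosses s t S e) : phi S (vec s t e) = 0 := by
  rw [phi_vec]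
  unfold Crosses at h
  by_cases h1 : s e ∈ S <;> by_cases h2 : t e ∈ S <;> simp_all

lemma phi_cross {s t : E → V} {S : Finset V} {e : E} (h : Crosses s t S e) : phi S (vec s t e) ≠ 0 := by
  rw [phi_vec]
  rcases h with ⟨h1, h2⟩ | ⟨h1, h2⟩ <;> simp [h1, h2]

lemma rk_cross (s t : E → V) (S : Finset V) (X : Finset E) (hX : ∀ e ∈ X, ¬ Crosses s t S e) (d : E)
    (hd : Crosses s t S d) : rk s t (insert d X) = rk s t X + 1 := by
  apply le_antisymm ((rk_rankFn s t).step X d)
  have hle : Submodule.span ℚ (vec s t '' (X : Set E)) ≤ LinearMap.ker (phi S) := by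
    rw [Submodule.span_le]
    rintro _ ⟨e, he, rfl⟩
    rw [SetLike.mem_coe, LinearMap.mem_ker]
    exact phi_noncross (hX e he)
  have hlt : Submodule.span ℚ (vec s t '' (X : Set E)) < Submodule.span ℚ (vec s t '' ((insert d X : Finset E) : Set E)) := by
    refine lt_of_le_of_ne (Submodule.span_mono (Set.image_mono (Finset.coe_subset.2 (Finset.subset_insert d X)))) ?_
    intro heq
    have : vec s t d ∈ Submodule.span ℚ (vec s t '' (X : Set E)) := by
      rw [heq]
      exact Submodule.subset_span ⟨d, by simp, rfl⟩
    exact phi_cross hd (LinearMap.mem_ker.1 (hle this))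
  exact Submodule.finrank_lt_finrank_of_lt hlt

lemma exists_cross {s t : E → V} {T : Finset E} (hT : IsSpanningTree s t T) (S : Finset V) (u v : V)
    (hu : u ∈ S) (hv : v ∉ S) : ∃ e ∈ T, Crosses s t S e := by
  by_contra hcon
  push Not at hcon
  have key : ∀ w, Relation.ReflTransGen (Adj s t T) u w → w ∈ S := by
    intro w hw
    induction hw with
    | refl => exact hu
    | @tail b c _ hbc ih =>
      obtain ⟨e, he, h⟩ := hbc
      have hn := hcon e he
      unfold Crosses at hn
      rcases h with ⟨h1, h2⟩ | ⟨h1, h2⟩
      · rw [h1, h2] at hn; tauto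
      · rw [h1, h2] at hn; tauto
  exact hv (key v (hT.2 u v))

/-- contraction of `g`: the vertex `s g` is identified with `t g` -/
def proj (s t : E → V) (g : E) (hg : s g ≠ t g) (w : V) : {w : V // w ≠ s g} :=
  if h : w = s g then ⟨t g, fun h2 => hg h2.symm⟩ else ⟨w, h⟩

lemma proj_val (s t : E → V) (g : E) (hg : s g ≠ t g) (w : {w : V // w ≠ s g}) :
    proj s t g hg w.1 = w := by
  unfold proj
  rw [dif_neg w.2]

lemma proj_eq {s t : E → V} {g : E} {hg : s g ≠ t g} {a b : V} (h : proj s t g hg a = proj s t g hg b)
    (X : Finset E) (hgX : g ∈ X) : Relation.ReflTransGen (Adj s t X) a b := by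
  unfold proj at h
  by_cases ha : a = s g
  · by_cases hb : b = s g
    · rw [ha, hb]
    · rw [dif_pos ha, dif_neg hb] at h
      have : t g = b := congrArg Subtype.val h
      exact Relation.ReflTransGen.single ⟨g, hgX, Or.inl ⟨ha.symm, this⟩⟩
  · by_cases hb : b = s g
    · rw [dif_neg ha, dif_pos hb] at h
      have : a = t g := congrArg Subtype.val h
      exact Relation.ReflTransGen.single ⟨g, hgX, Or.inr ⟨hb.symm, this.symm⟩⟩
    · rw [dif_neg ha, dif_neg hb] at h
      have : a = b := congrArg Subtype.val h
      rw [this]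

lemma card_contr (s t : E → V) (g : E) : Fintype.card {w : V // w ≠ s g} + 1 = Fintype.card V := by
  have := Fintype.card_subtype_compl (fun w : V => w = s g)
  rw [Fintype.card_subtype_eq] at this
  have h0 : 0 < Fintype.card V := Fintype.card_pos_iff.2 ⟨s g⟩
  have h1 : Fintype.card {w : V // w ≠ s g} = Fintype.card V - 1 := this
  omega

theorem contr (s t : E → V) (g : E) (hg : s g ≠ t g) (X : Finset E) (hgX : g ∉ X) :
    IsSpanningTree (fun e => proj s t g hg (s e)) (fun e => proj s t g hg (t e)) X ↔
      IsSpanningTree s t (insert g X) := by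
  have hc := card_contr s t g
  unfold IsSpanningTree
  rw [Finset.card_insert_of_notMem hgX]
  constructor
  · rintro ⟨h1, h2⟩
    refine ⟨by omega, ?_⟩
    have key : ∀ (a b : {w : V // w ≠ s g}), Relation.ReflTransGen
        (Adj (fun e => proj s t g hg (s e)) (fun e => proj s t g hg (t e)) X) a b →
        ∀ u : V, proj s t g hg u = a → Relation.ReflTransGen (Adj s t (insert g X)) u b.1 := by
      intro a b hab u hu
      induction hab with
      | refl =>
        exact proj_eq (by rw [hu, proj_val]) _ (Finset.mem_insert_self g X)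
      | @tail b c _ hbc ih =>
        obtain ⟨e, he, h⟩ := hbc
        rcases h with ⟨h3, h4⟩ | ⟨h3, h4⟩
        · have e1 : Relation.ReflTransGen (Adj s t (insert g X)) b.1 (s e) :=
            proj_eq (by rw [proj_val]; exact h3.symm) _ (Finset.mem_insert_self g X)
          have e2 : Relation.ReflTransGen (Adj s t (insert g X)) (s e) (t e) :=
            Relation.ReflTransGen.single ⟨e, Finset.mem_insert_of_mem he, Or.inl ⟨rfl, rfl⟩⟩
          have e3 : Relation.ReflTransGen (Adj s t (insert g X)) (t e) c.1 :=
            proj_eq (by rw [proj_val]; exact h4) _ (Finset.mem_insert_self g X)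
          exact ((ih.trans e1).trans e2).trans e3
        · have e1 : Relation.ReflTransGen (Adj s t (insert g X)) b.1 (t e) :=
            proj_eq (by rw [proj_val]; exact h4.symm) _ (Finset.mem_insert_self g X)
          have e2 : Relation.ReflTransGen (Adj s t (insert g X)) (t e) (s e) :=
            Relation.ReflTransGen.single ⟨e, Finset.mem_insert_of_mem he, Or.inr ⟨rfl, rfl⟩⟩
          have e3 : Relation.ReflTransGen (Adj s t (insert g X)) (s e) c.1 :=
            proj_eq (by rw [proj_val]; exact h3) _ (Finset.mem_insert_self g X)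
          exact ((ih.trans e1).trans e2).trans e3
    intro u v
    have h3 := key _ _ (h2 (proj s t g hg u) (proj s t g hg v)) u rfl
    have h4 : Relation.ReflTransGen (Adj s t (insert g X)) (proj s t g hg v).1 v :=
      proj_eq (by rw [proj_val]) _ (Finset.mem_insert_self g X)
    exact h3.trans h4
  · rintro ⟨h1, h2⟩
    refine ⟨by omega, ?_⟩
    have key : ∀ u v : V, Relation.ReflTransGen (Adj s t (insert g X)) u v → Relation.ReflTransGen
        (Adj (fun e => proj s t g hg (s e)) (fun e => proj s t g hg (t e)) X)
        (proj s t g hg u) (proj s t g hg v) := by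
      intro u v huv
      induction huv with
      | refl => exact Relation.ReflTransGen.refl
      | @tail b c _ hbc ih =>
        obtain ⟨e, he, h⟩ := hbc
        rcases Finset.mem_insert.1 he with rfl | he
        · have hpe : proj s t e hg (s e) = proj s t e hg (t e) := by
            unfold proj
            rw [dif_pos rfl, dif_neg (fun h => hg h.symm)]
          rcases h with ⟨h3, h4⟩ | ⟨h3, h4⟩
          · have hb : proj s t e hg b = proj s t e hg c :=
              (congrArg (proj s t e hg) h3).symm.trans (hpe.trans (congrArg (proj s t e hg) h4))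
            rw [← hb]; exact ih
          · have hb : proj s t e hg b = proj s t e hg c :=
              (congrArg (proj s t e hg) h4).symm.trans (hpe.symm.trans (congrArg (proj s t e hg) h3))
            rw [← hb]; exact ih
        · refine ih.tail ⟨e, he, ?_⟩
          rcases h with ⟨h3, h4⟩ | ⟨h3, h4⟩
          · left; exact ⟨by show proj s t g hg (s e) = _; rw [h3], by show proj s t g hg (t e) = _; rw [h4]⟩
          · right; exact ⟨by show proj s t g hg (s e) = _; rw [h3], by show proj s t g hg (t e) = _; rw [h4]⟩
    intro a b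
    have := key _ _ (h2 a.1 b.1)
    rw [proj_val, proj_val] at this
    exact this

end Pool.Agent.H25.CT
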