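import Pool.Agent.H25.CT.MU

set_option autoImplicit false

namespace Pool.Agent.H25.CT

open Finset

variable {α : Type*} [DecidableEq α]

/-- `X` has `k` elements and rank `k` -/
def Bs (r : Finset α → ℕ) (k : ℕ) (X : Finset α) : Prop := X.card = k ∧ r X = k

lemma le_card {r : Finset α → ℕ} (hr : RankFn r) (h0 : r ∅ = 0) (X : Finset α) : r X ≤ X.card := by
  have := hr.add ∅ X
  simp [h0] at this
  exact this

lemma indep_sub {r : Finset α → ℕ} (hr : RankFn r) (h0 : r ∅ = 0) {X Y : Finset α} (hXY : X ⊆ Y)
    (hY : r Y = Y.card) : r X = X.card := by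
  have h1 := hr.add X (Y \ X)
  rw [Finset.union_sdiff_of_subset hXY, hY] at h1
  have h2 := le_card hr h0 X
  have h3 := Finset.card_sdiff_add_card_eq_card hXY
  omega

theorem cyc_exchange {r : Finset α → ℕ} (hr : RankFn r) (h0 : r ∅ = 0) {k : ℕ} (hk : ∀ X, r X ≤ k)
    {A B C : Finset α} (hA : Bs r k A) (hB : Bs r k B) (hC : Bs r k C) (hBC : Disjoint B C)
    {A' : Finset α} (hA' : A' ⊆ A) :
    ∃ B' ⊆ B, ∃ C' ⊆ C, B'.card = A'.card ∧ C'.card = A'.card ∧ Bs r k ((A \ A') ∪ B') ∧
      Bs r k ((B \ B') ∪ C') ∧ Bs r k ((C \ C') ∪ A') := by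
  classical
  set f : Finset α → ℕ := fun X => r ((A \ A') ∪ (X ∩ B)) + r (A' ∪ (X ∩ C)) with hf
  have hA1 : r (A \ A') = (A \ A').card := indep_sub hr h0 Finset.sdiff_subset (by rw [hA.1, hA.2])
  have hA2 : r A' = A'.card := indep_sub hr h0 hA' (by rw [hA.1, hA.2])
  have hAc := Finset.card_sdiff_add_card_eq_card hA'
  have hA0 := hA.1
  have hfe : f ∅ = k := by
    simp only [hf, Finset.empty_inter, Finset.union_empty]
    omega
  have hfr : RankFn f := by
    refine ⟨?_, ?_, ?_⟩
    · intro X Y hXY
      have h1 : r ((A \ A') ∪ (X ∩ B)) ≤ r ((A \ A') ∪ (Y ∩ B)) := hr.mono _ _ (Finset.union_subset_union_right (Finset.inter_subset_inter_right hXY))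
      have h2 : r (A' ∪ (X ∩ C)) ≤ r (A' ∪ (Y ∩ C)) := hr.mono _ _ (Finset.union_subset_union_right (Finset.inter_subset_inter_right hXY))
      simp only [hf]; omega
    · intro X x
      simp only [hf]
      by_cases hxB : x ∈ B
      · have hxC : x ∉ C := Finset.disjoint_left.1 hBC hxB
        rw [Finset.insert_inter_of_mem hxB, Finset.insert_inter_of_notMem hxC, Finset.union_insert]
        have := hr.step (A \ A' ∪ X ∩ B) x
        omega
      · rw [Finset.insert_inter_of_notMem hxB]
        by_cases hxC : x ∈ C
        · rw [Finset.insert_inter_of_mem hxC, Finset.union_insert]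
          have := hr.step (A' ∪ X ∩ C) x
          omega
        · rw [Finset.insert_inter_of_notMem hxC]; omega
    · intro X Y
      have h1 := (hr.contract (A \ A')).submod (X ∩ B) (Y ∩ B)
      have h2 := (hr.contract A').submod (X ∩ C) (Y ∩ C)
      simp only [hf]
      have e1 : (X ∪ Y) ∩ B = X ∩ B ∪ Y ∩ B := by ext; simp only [mem_union, mem_inter]; tauto
      have e2 : (X ∪ Y) ∩ C = X ∩ C ∪ Y ∩ C := by ext; simp only [mem_union, mem_inter]; tauto
      have e3 : (X ∩ Y) ∩ B = X ∩ B ∩ (Y ∩ B) := by ext; simp only [mem_inter]; tauto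
      have e4 : (X ∩ Y) ∩ C = X ∩ C ∩ (Y ∩ C) := by ext; simp only [mem_inter]; tauto
      rw [e1, e2, e3, e4]
      omega
  have hcond : ∀ X ⊆ B ∪ C, X.card + f ∅ + r ∅ ≤ f X + r X := by
    intro X hX
    rw [hfe, h0]
    simp only [hf]
    set X2 := X ∩ B with hX2
    set X3 := X ∩ C with hX3
    have hXu : X = X2 ∪ X3 := by
      ext x; simp only [hX2, hX3, mem_union, mem_inter]
      constructor
      · intro h
        have := hX h
        rw [mem_union] at this
        tauto
      · tauto
    have hd : Disjoint X2 X3 := (hBC.mono Finset.inter_subset_right Finset.inter_subset_right)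
    have hc : X.card = X2.card + X3.card := by
      conv_lhs => rw [hXu]
      exact Finset.card_union_of_disjoint hd
    have h2 : r X2 = X2.card := indep_sub hr h0 Finset.inter_subset_right (by rw [hB.1, hB.2])
    have h3 : r X3 = X3.card := indep_sub hr h0 Finset.inter_subset_right (by rw [hC.1, hC.2])
    have s1 := hr.submod ((A \ A') ∪ X2) X
    have s2 := hr.submod ((A \ A') ∪ X2 ∪ X) (A' ∪ X3)
    have m1 : r X2 ≤ r (((A \ A') ∪ X2) ∩ X) := by
      apply hr.mono
      intro x hx
      rw [mem_inter, mem_union]
      exact ⟨Or.inr hx, Finset.inter_subset_left hx⟩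
    have m2 : r X3 ≤ r (((A \ A') ∪ X2 ∪ X) ∩ (A' ∪ X3)) := by
      apply hr.mono
      intro x hx
      simp only [mem_inter, mem_union]
      exact ⟨Or.inr (Finset.inter_subset_left hx), Or.inr hx⟩
    have m3 : r A ≤ r ((A \ A') ∪ X2 ∪ X ∪ (A' ∪ X3)) := by
      apply hr.mono
      intro x hx
      simp only [mem_union, mem_sdiff]
      tauto
    rw [hA.2] at m3
    omega
  obtain ⟨I, hI, hfI, hgI⟩ := union_lemma (B ∪ C).card (B ∪ C) rfl f r hfr hr hcond
  rw [hfe] at hfI
  rw [h0] at hgI
  simp only [hf] at hfI
  set B' := I ∩ B with hB'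
  set D := I ∩ C with hD
  have hB's : B' ⊆ B := Finset.inter_subset_right
  have hDs : D ⊆ C := Finset.inter_subset_right
  have hIc : I.card = B'.card + D.card := by
    have : I = B' ∪ D := by
      ext x; simp only [hB', hD, mem_union, mem_inter]
      constructor
      · intro h
        have := hI h
        rw [mem_union] at this
        tauto
      · tauto
    conv_lhs => rw [this]
    exact Finset.card_union_of_disjoint (hBC.mono hB's hDs)
  have c1 := Finset.card_union_le (A \ A') B'
  have c2 := Finset.card_union_le A' D
  have l1 := le_card hr h0 ((A \ A') ∪ B')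
  have l2 := le_card hr h0 (A' ∪ D)
  have k1 := hk ((A \ A') ∪ B')
  have k2 := hk (A' ∪ D)
  have hEI : (B ∪ C) \ I = (B \ B') ∪ (C \ D) := by
    ext x; simp only [hB', hD, mem_union, mem_inter, mem_sdiff]; tauto
  have hEIc : ((B ∪ C) \ I).card = (B \ B').card + (C \ D).card := by
    rw [hEI]
    exact Finset.card_union_of_disjoint (hBC.mono Finset.sdiff_subset Finset.sdiff_subset)
  have d1 := Finset.card_sdiff_add_card_eq_card hB's
  have d2 := Finset.card_sdiff_add_card_eq_card hDs
  have k3 := hk ((B ∪ C) \ I)
  have hB0 := hB.1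
  have hC0 := hC.1
  refine ⟨B', hB's, C \ D, Finset.sdiff_subset, by omega, by omega, ⟨by omega, by omega⟩, ?_, ?_⟩
  · rw [← hEI]; exact ⟨by omega, by omega⟩
  · rw [Finset.sdiff_sdiff_eq_self hDs, Finset.union_comm]
    exact ⟨by omega, by omega⟩

/-- a set of smaller rank is augmented from a set of larger rank -/
lemma augment {r : Finset α → ℕ} (hr : RankFn r) {X Y : Finset α} (h : r X < r (X ∪ Y)) :
    ∃ y ∈ Y, r X < r (insert y X) := by
  by_contra hcon
  push Not at hcon
  have key : ∀ Z : Finset α, Z ⊆ Y → r (X ∪ Z) ≤ r X := by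
    intro Z
    induction Z using Finset.induction_on with
    | empty => intro _; simp
    | insert z Z hz ih =>
      intro hZ
      have h1 := ih (fun w hw => hZ (Finset.mem_insert_of_mem hw))
      have h2 := hcon z (hZ (Finset.mem_insert_self z Z))
      have h3 := hr.submod (X ∪ Z) (insert z X)
      have h4 : r X ≤ r ((X ∪ Z) ∩ insert z X) := by
        apply hr.mono
        intro x hx
        simp only [mem_inter, mem_union, mem_insert]
        tauto
      have h5 : r (X ∪ insert z Z) ≤ r (X ∪ Z ∪ insert z X) := by
        apply hr.mono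
        intro x hx
        simp only [mem_union, mem_insert] at hx ⊢
        tauto
      omega
  have := key Y (Finset.Subset.refl Y)
  omega

/-- ordering lemma -/
theorem ord {r : Finset α → ℕ} (hr : RankFn r) (h0 : r ∅ = 0) {k : ℕ} (hk : ∀ X, r X ≤ k)
    (x : ℕ → α) (m : ℕ) (Z Y : Finset α) (hX : Bs r k ((Finset.range m).image x ∪ Z))
    (hY : Bs r k (Y ∪ Z)) (hYm : Y.card = m) (hZm : Z.card + m = k) :
    ∃ y : ℕ → α, (Finset.range m).image y = Y ∧
      ∀ i ≤ m, Bs r k ((Finset.Ico i m).image x ∪ (Finset.range i).image y ∪ Z) := by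
  classical
  have main : ∀ i ≤ m, ∃ y : ℕ → α, (∀ j < i, y j ∈ Y) ∧
      ∀ j ≤ i, Bs r k ((Finset.Ico j m).image x ∪ (Finset.range j).image y ∪ Z) := by
    intro i
    induction i with
    | zero =>
      intro _
      refine ⟨x, fun j hj => absurd hj (Nat.not_lt_zero j), ?_⟩
      intro j hj
      obtain rfl : j = 0 := by omega
      have e0 : Finset.Ico 0 m = Finset.range m := by rw [Finset.range_eq_Ico]
      rw [e0, Finset.range_zero, Finset.image_empty, Finset.union_empty]
      exact hX
    | succ i ih =>
      intro hi
      obtain ⟨y, hy1, hy2⟩ := ih (by omega)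
      set S : Finset α := (Finset.Ico (i + 1) m).image x ∪ (Finset.range i).image y ∪ Z with hS
      have hbase := hy2 i le_rfl
      have hins : (Finset.Ico i m).image x ∪ (Finset.range i).image y ∪ Z = insert (x i) S := by
        have : Finset.Ico i m = insert i (Finset.Ico (i + 1) m) := by
          ext j; simp only [mem_Ico, mem_insert]; omega
        rw [this, Finset.image_insert, hS, Finset.insert_union, Finset.insert_union]
      rw [hins] at hbase
      have hScard : S.card ≤ k - 1 := by
        have e1 := Finset.card_union_le ((Finset.Ico (i + 1) m).image x ∪ (Finset.range i).image y) Z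
        rw [← hS] at e1
        have e2 := Finset.card_union_le ((Finset.Ico (i + 1) m).image x) ((Finset.range i).image y)
        have e3 : ((Finset.Ico (i + 1) m).image x).card ≤ (Finset.Ico (i + 1) m).card := Finset.card_image_le
        have e4 : ((Finset.range i).image y).card ≤ (Finset.range i).card := Finset.card_image_le
        rw [Nat.card_Ico] at e3
        rw [Finset.card_range] at e4
        omega
      have hSr := le_card hr h0 S
      have hSk : S.card = k - 1 ∧ r S = k - 1 ∧ 1 ≤ k := by
        have g1 := Finset.card_insert_le (x i) S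
        have g2 := hr.step S (x i)
        have g3 := hbase.1
        have g4 := hbase.2
        omega
      have hlt : r S < r (S ∪ Y) := by
        have : r (Y ∪ Z) ≤ r (S ∪ Y) := by
          apply hr.mono
          intro w hw
          simp only [hS, mem_union] at hw ⊢
          tauto
        rw [hY.2] at this
        omega
      obtain ⟨w, hwY, hw⟩ := augment hr hlt
      refine ⟨Function.update y i w, ?_, ?_⟩
      · intro j hj
        by_cases hji : j = i
        · subst hji; simpa using hwY
        · rw [Function.update_of_ne hji]; exact hy1 j (by omega)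
      · intro j hj
        have himg : ∀ l ≤ i, (Finset.range l).image (Function.update y i w) = (Finset.range l).image y := by
          intro l hl
          apply Finset.image_congr
          intro t ht
          have : t ≠ i := by
            have := Finset.mem_range.1 (Finset.mem_coe.1 ht)
            omega
          simp [Function.update_of_ne this]
        by_cases hji : j ≤ i
        · rw [himg j hji]; exact hy2 j hji
        · obtain rfl : j = i + 1 := by omega
          have e1 : (Finset.range (i + 1)).image (Function.update y i w) = insert w ((Finset.range i).image y) := by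
            rw [Finset.range_add_one, Finset.image_insert, himg i le_rfl, Function.update_self]
          rw [e1, Finset.union_insert, Finset.insert_union, ← hS]
          have g1 := Finset.card_insert_le w S
          have g2 := le_card hr h0 (insert w S)
          have g3 := hk (insert w S)
          exact ⟨by omega, by omega⟩
  obtain ⟨y, hy1, hy2⟩ := main m le_rfl
  refine ⟨y, ?_, hy2⟩
  apply Finset.eq_of_subset_of_card_le
  · intro w hw
    obtain ⟨j, hj, rfl⟩ := Finset.mem_image.1 hw
    exact hy1 j (Finset.mem_range.1 hj)
  · have h1 := (hy2 m le_rfl).1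
    simp only [Finset.Ico_self, Finset.image_empty, Finset.empty_union] at h1
    have h2 := Finset.card_union_le ((Finset.range m).image y) Z
    omega

/-- combination of two blocks -/
theorem comb {r : Finset α → ℕ} (hr : RankFn r) (h0 : r ∅ = 0) {k : ℕ} (hk : ∀ X, r X ≤ k)
    (x : ℕ → α) (p : ℕ) (hp : p ≤ k) (Y Y' : Finset α) (hY' : Y' ⊆ Y)
    (hX : Bs r k ((Finset.range k).image x)) (hY : Bs r k Y) (hYp : Y'.card = p)
    (hXY : Bs r k ((Finset.Ico p k).image x ∪ Y')) :
    ∃ y : ℕ → α, (Finset.range p).image y = Y' ∧ (Finset.Ico p k).image y = Y \ Y' ∧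
      ∀ i ≤ k, Bs r k ((Finset.Ico i k).image x ∪ (Finset.range i).image y) := by
  classical
  have hcardI : ((Finset.Ico p k).image x).card + p = k := by
    have h1 := hXY.1
    have h2 := Finset.card_union_le ((Finset.Ico p k).image x) Y'
    have h3 : ((Finset.Ico p k).image x).card ≤ (Finset.Ico p k).card := Finset.card_image_le
    rw [Nat.card_Ico] at h3
    omega
  have hsplit : (Finset.range p).image x ∪ (Finset.Ico p k).image x = (Finset.range k).image x := by
    rw [← Finset.image_union]
    congr 1
    ext j; simp only [mem_union, mem_range, mem_Ico]; omega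
  obtain ⟨y1, hy1, hb1⟩ := ord hr h0 hk x p ((Finset.Ico p k).image x) Y'
    (by rw [hsplit]; exact hX) (by rw [Finset.union_comm]; exact hXY) hYp hcardI
  have hshift : ∀ i, i ≤ k - p → (Finset.Ico i (k - p)).image (fun j => x (p + j)) = (Finset.Ico (p + i) k).image x := by
    intro i hi
    ext w
    simp only [mem_image, mem_Ico]
    constructor
    · rintro ⟨j, hj, rfl⟩
      exact ⟨p + j, by omega, rfl⟩
    · rintro ⟨j, hj, rfl⟩
      exact ⟨j - p, by omega, by congr 1; omega⟩
  have hd := Finset.card_sdiff_add_card_eq_card hY'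
  have hYc := hY.1
  obtain ⟨y2, hy2, hb2⟩ := ord hr h0 hk (fun j => x (p + j)) (k - p) Y' (Y \ Y')
    (by
      have := hshift 0 (by omega)
      rw [Nat.add_zero] at this
      rw [Finset.range_eq_Ico, this]; exact hXY)
    (by rw [Finset.sdiff_union_of_subset hY']; exact hY) (by omega) (by omega)
  set y : ℕ → α := fun j => if j < p then y1 j else y2 (j - p) with hy
  have hlow : ∀ i ≤ p, (Finset.range i).image y = (Finset.range i).image y1 := by
    intro i hi
    apply Finset.image_congr
    intro t ht
    have := Finset.mem_range.1 (Finset.mem_coe.1 ht)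
    simp only [hy]
    rw [if_pos (by omega)]
  have hhigh : ∀ i, (Finset.Ico p (p + i)).image y = (Finset.range i).image y2 := by
    intro i
    ext w
    simp only [mem_image, mem_Ico, mem_range, hy]
    constructor
    · rintro ⟨j, hj, rfl⟩
      refine ⟨j - p, by omega, ?_⟩
      rw [if_neg (by omega)]
    · rintro ⟨j, hj, rfl⟩
      refine ⟨p + j, by omega, ?_⟩
      rw [if_neg (by omega)]
      congr 1; omega
  refine ⟨y, ?_, ?_, ?_⟩
  · rw [hlow p le_rfl, hy1]
  · have := hhigh (k - p)
    rw [show p + (k - p) = k by omega] at this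
    rw [this, hy2]
  · intro i hi
    by_cases hip : i ≤ p
    · have h1 := hb1 i hip
      rw [hlow i hip]
      have e : (Finset.Ico i k).image x = (Finset.Ico i p).image x ∪ (Finset.Ico p k).image x := by
        rw [← Finset.image_union]
        congr 1
        ext j; simp only [mem_union, mem_Ico]; omega
      rw [e, Finset.union_right_comm]
      exact h1
    · have h1 := hb2 (i - p) (by omega)
      rw [hshift (i - p) (by omega), show p + (i - p) = i by omega] at h1
      have e : (Finset.range i).image y = (Finset.range (i - p)).image y2 ∪ Y' := by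
        have := hhigh (i - p)
        rw [show p + (i - p) = i by omega] at this
        rw [← this, ← hy1, ← hlow p le_rfl, ← Finset.image_union]
        congr 1
        ext j; simp only [mem_union, mem_Ico, mem_range]; omega
      rw [e, ← Finset.union_assoc]
      exact h1

end Pool.Agent.H25.CT
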