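import Pool.Agent.H25.CT.Cyc

set_option autoImplicit false
set_option linter.unusedSectionVars false

namespace Pool.Agent.H25.CT

open Finset

/-- `u` and `v` are the ends of an edge of the set `X`; the edge `e` has the ends `s e` and `t e` -/
def Adj {V E : Type} (s t : E → V) (X : Finset E) (u v : V) : Prop :=
  ∃ e ∈ X, (s e = u ∧ t e = v) ∨ (s e = v ∧ t e = u)

/-- the edges of `X` form a spanning tree: they connect all vertices and there are `|V| - 1` of them -/
def IsSpanningTree {V E : Type} [Fintype V] (s t : E → V) (X : Finset E) : Prop :=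
  X.card + 1 = Fintype.card V ∧ ∀ u v : V, Relation.ReflTransGen (Adj s t X) u v

variable {V E : Type} [Fintype V] [DecidableEq V] [DecidableEq E]

noncomputable def vec (s t : E → V) (e : E) : V → ℚ := Pi.single (s e) 1 - Pi.single (t e) 1

noncomputable def rk (s t : E → V) (X : Finset E) : ℕ :=
  Module.finrank ℚ (Submodule.span ℚ (vec s t '' (X : Set E)))

lemma rk_empty (s t : E → V) : rk s t ∅ = 0 := by
  simp [rk]

lemma rk_rankFn (s t : E → V) : RankFn (rk s t) := by
  refine ⟨?_, ?_, ?_⟩
  · intro A B hAB
    exact Submodule.finrank_mono (Submodule.span_mono (Set.image_mono (Finset.coe_subset.2 hAB)))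
  · intro A x
    unfold rk
    rw [Finset.coe_insert, Set.image_insert_eq, Submodule.span_insert]
    have h1 := Submodule.finrank_add_le_finrank_add_finrank (Submodule.span ℚ {vec s t x})
      (Submodule.span ℚ (vec s t '' (A : Set E)))
    have h2 : Module.finrank ℚ (Submodule.span ℚ {vec s t x}) ≤ 1 := by
      have := finrank_span_finset_le_card (R := ℚ) ({vec s t x} : Finset (V → ℚ))
      rw [Finset.coe_singleton, Finset.card_singleton] at this
      exact this
    omega
  · intro A B
    unfold rk
    have h1 := Submodule.finrank_sup_add_finrank_inf_eq (Submodule.span ℚ (vec s t '' (A : Set E)))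
      (Submodule.span ℚ (vec s t '' (B : Set E)))
    rw [Finset.coe_union, Set.image_union, Submodule.span_union]
    have h2 : Module.finrank ℚ (Submodule.span ℚ (vec s t '' ((A ∩ B : Finset E) : Set E))) ≤
        Module.finrank ℚ ((Submodule.span ℚ (vec s t '' (A : Set E)) ⊓
          Submodule.span ℚ (vec s t '' (B : Set E)) : Submodule ℚ (V → ℚ))) := by
      apply Submodule.finrank_mono
      apply le_inf
      · exact Submodule.span_mono (Set.image_mono (Finset.coe_subset.2 Finset.inter_subset_left))
      · exact Submodule.span_mono (Set.image_mono (Finset.coe_subset.2 Finset.inter_subset_right))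
    omega

/-- the functional `x ↦ ∑ v ∈ S, x v` -/
noncomputable def phi (S : Finset V) : (V → ℚ) →ₗ[ℚ] ℚ := ∑ v ∈ S, LinearMap.proj v

lemma phi_apply (S : Finset V) (x : V → ℚ) : phi S x = ∑ v ∈ S, x v := by
  simp [phi, LinearMap.sum_apply]

lemma phi_vec (S : Finset V) (s t : E → V) (e : E) :
    phi S (vec s t e) = (if s e ∈ S then 1 else 0) - (if t e ∈ S then 1 else 0) := by
  rw [phi_apply]
  simp [vec, Finset.sum_sub_distrib, Pi.single_apply]

lemma phi_single (S : Finset V) (u : V) : phi S (Pi.single u 1) = if u ∈ S then 1 else 0 := by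
  rw [phi_apply]
  simp [Pi.single_apply]

lemma finrank_ker [Nonempty V] : Module.finrank ℚ (LinearMap.ker (phi (Finset.univ : Finset V))) + 1 =
    Fintype.card V := by
  have h1 := LinearMap.finrank_range_add_finrank_ker (phi (Finset.univ : Finset V))
  have h2 : LinearMap.range (phi (Finset.univ : Finset V)) = ⊤ := by
    rw [LinearMap.range_eq_top]
    intro q
    obtain ⟨u⟩ := ‹Nonempty V›
    refine ⟨q • Pi.single u 1, ?_⟩
    rw [map_smul, phi_single]
    simp
  rw [h2, finrank_top, Module.finrank_self, Module.finrank_fintype_fun_eq_card] at h1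
  omega

lemma span_le_ker (s t : E → V) (X : Finset E) :
    Submodule.span ℚ (vec s t '' (X : Set E)) ≤ LinearMap.ker (phi (Finset.univ : Finset V)) := by
  rw [Submodule.span_le]
  rintro _ ⟨e, _, rfl⟩
  rw [SetLike.mem_coe, LinearMap.mem_ker, phi_vec]
  simp

lemma rk_le [Nonempty V] (s t : E → V) (X : Finset E) : rk s t X ≤ Fintype.card V - 1 := by
  have h1 := Submodule.finrank_mono (span_le_ker s t X)
  have h2 := finrank_ker (V := V)
  unfold rk
  omega

lemma bs_of_tree [Nonempty V] (s t : E → V) (X : Finset E) (h : IsSpanningTree s t X) :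
    Bs (rk s t) (Fintype.card V - 1) X := by
  obtain ⟨hc, hconn⟩ := h
  refine ⟨by omega, le_antisymm (rk_le s t X) ?_⟩
  have h2 := finrank_ker (V := V)
  have h3 : LinearMap.ker (phi (Finset.univ : Finset V)) ≤ Submodule.span ℚ (vec s t '' (X : Set E)) := by
    have key : ∀ u v : V, (Pi.single u 1 - Pi.single v 1 : V → ℚ) ∈ Submodule.span ℚ (vec s t '' (X : Set E)) := by
      intro u v
      have := hconn u v
      induction this with
      | refl => rw [sub_self]; exact Submodule.zero_mem _
      | @tail b c _ hab ih =>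
        obtain ⟨e, he, h⟩ := hab
        have hve : vec s t e ∈ Submodule.span ℚ (vec s t '' (X : Set E)) :=
          Submodule.subset_span ⟨e, he, rfl⟩
        rcases h with ⟨h1, h2⟩ | ⟨h1, h2⟩
        · have : (Pi.single u 1 - Pi.single c 1 : V → ℚ) = (Pi.single u 1 - Pi.single b 1) + vec s t e := by
            rw [vec, h1, h2]; abel
          rw [this]; exact Submodule.add_mem _ ih hve
        · have : (Pi.single u 1 - Pi.single c 1 : V → ℚ) = (Pi.single u 1 - Pi.single b 1) - vec s t e := by
            rw [vec, h1, h2]; abel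
          rw [this]; exact Submodule.sub_mem _ ih hve
    intro x hx
    rw [LinearMap.mem_ker, phi_apply] at hx
    obtain ⟨v0⟩ := ‹Nonempty V›
    have hx2 : x = ∑ v, x v • (Pi.single v 1 - Pi.single v0 1 : V → ℚ) := by
      simp_rw [smul_sub]
      rw [Finset.sum_sub_distrib, ← Finset.sum_smul, hx, zero_smul, sub_zero]
      ext w
      simp [Finset.sum_apply, Pi.single_apply]
    rw [hx2]
    exact Submodule.sum_mem _ fun v _ => Submodule.smul_mem _ _ (key v v0)
  have h4 := Submodule.finrank_mono h3
  unfold rk
  omega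

lemma tree_of_bs [Nonempty V] (s t : E → V) (X : Finset E) (h : Bs (rk s t) (Fintype.card V - 1) X) :
    IsSpanningTree s t X := by
  classical
  obtain ⟨hc, hr⟩ := h
  have hpos : 0 < Fintype.card V := Fintype.card_pos
  refine ⟨by omega, ?_⟩
  intro u v
  have h2 := finrank_ker (V := V)
  have heq : Submodule.span ℚ (vec s t '' (X : Set E)) = LinearMap.ker (phi (Finset.univ : Finset V)) := by
    apply Submodule.eq_of_le_of_finrank_eq (span_le_ker s t X)
    unfold rk at hr
    omega
  set S : Finset V := Finset.univ.filter (fun w => Relation.ReflTransGen (Adj s t X) u w) with hS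
  have hSm : ∀ w, w ∈ S ↔ Relation.ReflTransGen (Adj s t X) u w := by
    intro w; simp [hS]
  have hle : Submodule.span ℚ (vec s t '' (X : Set E)) ≤ LinearMap.ker (phi S) := by
    rw [Submodule.span_le]
    rintro _ ⟨e, he, rfl⟩
    rw [SetLike.mem_coe, LinearMap.mem_ker, phi_vec]
    have h1 : s e ∈ S ↔ t e ∈ S := by
      rw [hSm, hSm]
      constructor
      · intro h; exact h.tail ⟨e, he, Or.inl ⟨rfl, rfl⟩⟩
      · intro h; exact h.tail ⟨e, he, Or.inr ⟨rfl, rfl⟩⟩
    by_cases hs : s e ∈ S
    · rw [if_pos hs, if_pos (h1.1 hs), sub_self]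
    · rw [if_neg hs, if_neg (fun h => hs (h1.2 h)), sub_self]
  have hmem : (Pi.single u 1 - Pi.single v 1 : V → ℚ) ∈ LinearMap.ker (phi (Finset.univ : Finset V)) := by
    rw [LinearMap.mem_ker, map_sub, phi_single, phi_single]; simp
  rw [← heq] at hmem
  have h5 := hle hmem
  rw [LinearMap.mem_ker, map_sub, phi_single, phi_single, if_pos ((hSm u).2 Relation.ReflTransGen.refl)] at h5
  by_contra hv
  rw [if_neg (fun h => hv ((hSm v).1 h))] at h5
  norm_num at h5

end Pool.Agent.H25.CT
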