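import Mathlib

set_option autoImplicit false

namespace Pool.Agent.H25.CT

/-- Monotone submodular functions with unit increments (matroid rank functions up to a constant). -/
structure RankFn {α : Type*} [DecidableEq α] (f : Finset α → ℕ) : Prop where
  mono : ∀ A B, A ⊆ B → f A ≤ f B
  step : ∀ A x, f (insert x A) ≤ f A + 1
  submod : ∀ A B, f (A ∪ B) + f (A ∩ B) ≤ f A + f B

variable {α : Type*} [DecidableEq α]

lemma RankFn.add {f : Finset α → ℕ} (h : RankFn f) (A B : Finset α) :
    f (A ∪ B) ≤ f A + B.card := by
  induction B using Finset.induction_on with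
  | empty => simp
  | insert x B hx ih =>
    rw [Finset.union_insert, Finset.card_insert_of_notMem hx]
    have := h.step (A ∪ B) x
    omega

lemma RankFn.contract {f : Finset α → ℕ} (h : RankFn f) (A : Finset α) :
    RankFn (fun B => f (A ∪ B)) where
  mono := fun B C hBC => h.mono _ _ (Finset.union_subset_union_right hBC)
  step := fun B x => by
    show f (A ∪ insert x B) ≤ _
    rw [Finset.union_insert]
    exact h.step _ _
  submod := fun B C => by
    have := h.submod (A ∪ B) (A ∪ C)
    have h1 : (A ∪ B) ∪ (A ∪ C) = A ∪ (B ∪ C) := by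
      ext; simp only [Finset.mem_union]; tauto
    have h2 : (A ∪ B) ∩ (A ∪ C) = A ∪ (B ∩ C) := by
      ext; simp only [Finset.mem_union, Finset.mem_inter]; tauto
    rw [h1, h2] at this
    exact this

/-- Matroid union (covering form) for two matroids. -/
theorem union_lemma (n : ℕ) : ∀ (E : Finset α), E.card = n →
    ∀ f g : Finset α → ℕ, RankFn f → RankFn g →
    (∀ A ⊆ E, A.card + f ∅ + g ∅ ≤ f A + g A) →
    ∃ I ⊆ E, f I = f ∅ + I.card ∧ g (E \ I) = g ∅ + (E \ I).card := by
  induction n using Nat.strong_induction_on with
  | _ n ih =>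
  intro E hE f g hf hg hcond
  have ubf : ∀ A : Finset α, f A ≤ f ∅ + A.card := fun A => by
    simpa using hf.add ∅ A
  have ubg : ∀ A : Finset α, g A ≤ g ∅ + A.card := fun A => by
    simpa using hg.add ∅ A
  by_cases hE0 : E = ∅
  · subst hE0
    exact ⟨∅, subset_rfl, by simp, by simp⟩
  by_cases hex : ∃ A, A ⊂ E ∧ A.Nonempty ∧ A.card + f ∅ + g ∅ = f A + g A
  · obtain ⟨A, hAE, hAne, hA⟩ := hex
    have hcardA : A.card < E.card := Finset.card_lt_card hAE
    have hApos : 0 < A.card := Finset.card_pos.mpr hAne
    obtain ⟨I, hIA, hfI, hgI⟩ := ih A.card (by omega) A rfl f g hf hg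
      (fun B hB => hcond B (hB.trans hAE.subset))
    have hcEA : (E \ A).card = E.card - A.card := by
      rw [Finset.card_sdiff_of_subset hAE.subset]
    obtain ⟨J, hJ, hfJ, hgJ⟩ := ih (E \ A).card (by omega) (E \ A) rfl
      (fun B => f (A ∪ B)) (fun B => g (A ∪ B)) (hf.contract A) (hg.contract A)
      (fun B hB => by
        have h1 := hcond (A ∪ B) (Finset.union_subset hAE.subset (hB.trans Finset.sdiff_subset))
        have hdisj : Disjoint A B := by
          rw [Finset.disjoint_left]
          intro x hx hxB
          exact (Finset.mem_sdiff.mp (hB hxB)).2 hx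
        rw [Finset.card_union_of_disjoint hdisj] at h1
        simp only [Finset.union_empty]
        omega)
    simp only [Finset.union_empty] at hfJ hgJ
    have hcIA : (A \ I).card + I.card = A.card := Finset.card_sdiff_add_card_eq_card hIA
    have hfA : f A = f I := by
      have h1 := hf.mono _ _ hIA
      have h2 := hg.mono _ _ (Finset.sdiff_subset : A \ I ⊆ A)
      omega
    have hgA : g A = g (A \ I) := by
      have h1 := hf.mono _ _ hIA
      have h2 := hg.mono _ _ (Finset.sdiff_subset : A \ I ⊆ A)
      omega
    have hJA : Disjoint J A := by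
      rw [Finset.disjoint_left]
      intro x hx hxA
      exact (Finset.mem_sdiff.mp (hJ hx)).2 hxA
    refine ⟨I ∪ J, Finset.union_subset (hIA.trans hAE.subset) (hJ.trans Finset.sdiff_subset), ?_, ?_⟩
    · have hIJ : Disjoint I J := by
        exact Disjoint.mono_left hIA hJA.symm
      have h1 := hf.submod A (I ∪ J)
      have e1 : A ∪ (I ∪ J) = A ∪ J := by
        ext x; simp only [Finset.mem_union]
        constructor
        · rintro (h | h | h)
          · exact Or.inl h
          · exact Or.inl (hIA h)
          · exact Or.inr h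
        · rintro (h | h)
          · exact Or.inl h
          · exact Or.inr (Or.inr h)
      have e2 : A ∩ (I ∪ J) = I := by
        ext x; simp only [Finset.mem_union, Finset.mem_inter]
        constructor
        · rintro ⟨h, h' | h'⟩
          · exact h'
          · exact absurd h (Finset.disjoint_left.mp hJA h')
        · intro h
          exact ⟨hIA h, Or.inl h⟩
      rw [e1, e2] at h1
      have h2 := ubf (I ∪ J)
      rw [Finset.card_union_of_disjoint hIJ] at h2 ⊢
      omega
    · have e0 : E \ (I ∪ J) = (A \ I) ∪ ((E \ A) \ J) := by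
        ext x; simp only [Finset.mem_union, Finset.mem_sdiff]
        constructor
        · rintro ⟨hxE, hx⟩
          push Not at hx
          by_cases hxA : x ∈ A
          · exact Or.inl ⟨hxA, hx.1⟩
          · exact Or.inr ⟨⟨hxE, hxA⟩, hx.2⟩
        · rintro (⟨hxA, hxI⟩ | ⟨⟨hxE, hxA⟩, hxJ⟩)
          · exact ⟨hAE.subset hxA, fun h => h.elim hxI (fun h => Finset.disjoint_left.mp hJA h hxA)⟩
          · exact ⟨hxE, fun h => h.elim (fun h => hxA (hIA h)) hxJ⟩
      have hdis : Disjoint (A \ I) ((E \ A) \ J) := by
        rw [Finset.disjoint_left]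
        intro x hx hx'
        exact (Finset.mem_sdiff.mp (Finset.mem_sdiff.mp hx').1).2 (Finset.mem_sdiff.mp hx).1
      have h1 := hg.submod A ((A \ I) ∪ ((E \ A) \ J))
      have e1 : A ∪ ((A \ I) ∪ ((E \ A) \ J)) = A ∪ ((E \ A) \ J) := by
        ext x; simp only [Finset.mem_union, Finset.mem_sdiff]; tauto
      have e2 : A ∩ ((A \ I) ∪ ((E \ A) \ J)) = A \ I := by
        ext x; simp only [Finset.mem_union, Finset.mem_sdiff, Finset.mem_inter]; tauto
      rw [e1, e2] at h1
      have h2 := ubg ((A \ I) ∪ ((E \ A) \ J))
      rw [e0]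
      rw [Finset.card_union_of_disjoint hdis] at h2 ⊢
      omega
  · push Not at hex
    obtain ⟨e, he⟩ := Finset.nonempty_iff_ne_empty.mpr hE0
    by_cases hE1 : E = {e}
    · have h1 := hcond E subset_rfl
      have hc : E.card = 1 := by rw [hE1]; simp
      by_cases hfe : f E = f ∅ + 1
      · exact ⟨E, subset_rfl, by omega, by simp⟩
      · refine ⟨∅, Finset.empty_subset _, by simp, ?_⟩
        have h2 := ubf E
        have h3 := ubg E
        rw [Finset.sdiff_empty]
        omega
    · have hprop : ∀ A ⊆ E.erase e, A.Nonempty → A.card + f ∅ + g ∅ + 1 ≤ f A + g A := by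
        intro A hA hAne
        have hAE : A ⊂ E := lt_of_le_of_lt hA (Finset.erase_ssubset he)
        have h1 := hex A hAE hAne
        have h2 := hcond A hAE.subset
        omega
      have hee : f {e} = f ∅ + 1 := by
        have hAE : {e} ⊂ E := by
          refine Finset.ssubset_iff_subset_ne.mpr ⟨by simpa using he, fun h => hE1 h.symm⟩
        have h1 := hex {e} hAE (Finset.singleton_nonempty e)
        have h2 := hcond {e} hAE.subset
        have h3 := ubf {e}
        have h4 := ubg {e}
        rw [Finset.card_singleton] at h1 h2 h3 h4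
        omega
      have hcE : (E.erase e).card + 1 = E.card := Finset.card_erase_add_one he
      obtain ⟨I, hIE, hfI, hgI⟩ := ih (E.erase e).card (by omega) (E.erase e) rfl
        (fun B => f ({e} ∪ B)) g (hf.contract {e}) hg
        (fun B hB => by
          simp only [Finset.union_empty]
          rcases B.eq_empty_or_nonempty with rfl | hBne
          · simp
          · have h1 := hprop B hB hBne
            have h2 := hf.mono B ({e} ∪ B) Finset.subset_union_right
            omega)
      simp only [Finset.union_empty] at hfI
      have heI : e ∉ I := fun h => (Finset.mem_erase.mp (hIE h)).1 rfl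
      refine ⟨insert e I, ?_, ?_, ?_⟩
      · intro x hx
        rcases Finset.mem_insert.mp hx with rfl | h
        · exact he
        · exact Finset.erase_subset _ _ (hIE h)
      · rw [Finset.card_insert_of_notMem heI, Finset.insert_eq]
        omega
      · have e0 : E \ insert e I = E.erase e \ I := by
          ext x; simp only [Finset.mem_sdiff, Finset.mem_insert, Finset.mem_erase]; tauto
        rw [e0]
        exact hgI

end Pool.Agent.H25.CT
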