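import Pool.Agent.Results.MP_974a61_co.CyclicExchange

set_option autoImplicit false

namespace Pool.Agent.H25.CT

open Finset Pool.Agent.Results.MP_974a61_co.CyclicExchange

variable {E : Type} [DecidableEq E]

lemma bs_win {r : Finset E → ℕ} {k : ℕ} (F : ℕ → E) (j : ℕ) (X : Finset E) (hX : Bs r k X)
    (h : ∀ x ∈ X, ∃ m, j ≤ m ∧ m < j + k ∧ F m = x) : Bs r k (win F k j) := by
  have hsub : X ⊆ win F k j := by
    intro x hx
    obtain ⟨m, h1, h2, h3⟩ := h x hx
    refine Finset.mem_image.2 ⟨m - j, Finset.mem_range.2 (by omega), ?_⟩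
    rw [← h3]
    show F (j + (m - j)) = F m
    congr 1; omega
  have hc : (win F k j).card ≤ k := by
    unfold win
    refine Finset.card_image_le.trans ?_
    rw [Finset.card_range]
  have : X = win F k j := Finset.eq_of_subset_of_card_le hsub (by rw [hX.1]; exact hc)
  rw [← this]; exact hX

lemma mem_win {f : ℕ → E} {k j : ℕ} {x : E} (h : x ∈ win f k j) : ∃ a, j ≤ a ∧ a < j + k ∧ f a = x := by
  obtain ⟨i, hi, rfl⟩ := Finset.mem_image.1 h
  rw [mem_range] at hi
  exact ⟨j + i, by omega, by omega, rfl⟩

/-- reduction of windows mod period -/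
lemma per_all {r : Finset E → ℕ} {k m : ℕ} (hm : 0 < m) (F : ℕ → E) (hper : ∀ j, F (j + m) = F j)
    (h : ∀ j < m, Bs r k (win F k j)) : ∀ j, Bs r k (win F k j) := by
  have hper2 : ∀ q j, F (j + m * q) = F j := by
    intro q
    induction q with
    | zero => intro j; simp
    | succ q ih =>
      intro j
      rw [Nat.mul_succ, ← add_assoc, hper, ih]
  intro j
  have h1 := h (j % m) (Nat.mod_lt _ hm)
  have h2 : win F k j = win F k (j % m) := by
    unfold win
    apply Finset.image_congr
    intro i _
    show F (j + i) = F (j % m + i)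
    have := hper2 (j / m) (j % m + i)
    rw [← this]
    congr 1
    have := Nat.mod_add_div j m
    omega
  rw [h2]; exact h1

/-- a cyclic ordering from a surjection -/
lemma cyc_of_surj {U : Finset E} {m : ℕ} (hU : U.card = m) (F : ℕ → E) (hper : ∀ j, F (j + m) = F j)
    (h : ∀ x ∈ U, ∃ i < m, F i = x) : IsCyclicOrdering U F := by
  have hsub : U ⊆ (Finset.range m).image F := by
    intro x hx
    obtain ⟨i, hi, rfl⟩ := h x hx
    exact Finset.mem_image_of_mem F (Finset.mem_range.2 hi)
  have hc : ((Finset.range m).image F).card ≤ m := by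
    refine Finset.card_image_le.trans ?_
    rw [Finset.card_range]
  have := Finset.eq_of_subset_of_card_le hsub (by omega)
  exact ⟨by rw [hU]; exact hper, by rw [hU]; exact this.symm⟩

lemma cyc_mem {U : Finset E} {f : ℕ → E} (hf : IsCyclicOrdering U f) (h0 : 0 < U.card) (j : ℕ) : f j ∈ U := by
  obtain ⟨hper, himg⟩ := hf
  have hper2 : ∀ q j, f (j + U.card * q) = f j := by
    intro q
    induction q with
    | zero => intro j; simp
    | succ q ih =>
      intro j
      rw [Nat.mul_succ, ← add_assoc, hper, ih]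
  have h1 := hper2 (j / U.card) (j % U.card)
  rw [Nat.mod_add_div] at h1
  rw [h1]
  have : f (j % U.card) ∈ (Finset.range U.card).image f :=
    Finset.mem_image_of_mem f (Finset.mem_range.2 (Nat.mod_lt _ h0))
  rw [himg] at this
  exact this

/-- three element cut -/
theorem red3 {r : Finset E → ℕ} {k : ℕ} (hk : 1 ≤ k) (U : Finset E) (g h₁ h₂ : E) (hU : U.card = 3 * k + 3)
    (hg : g ∈ U) (hh₁ : h₁ ∈ U) (hh₂ : h₂ ∈ U) (hgh₁ : g ≠ h₁) (hgh₂ : g ≠ h₂) (hh : h₁ ≠ h₂)
    (hcut : ∀ X ⊆ U \ {g, h₁, h₂}, ∀ d ∈ ({g, h₁, h₂} : Finset E), r (insert d X) = r X + 1)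
    (f : ℕ → E) (hf : IsCyclicOrdering (U \ {g, h₁, h₂}) f)
    (hw : ∀ j, Bs r (k + 1) (insert g (win f k j))) :
    ∃ F : ℕ → E, IsCyclicOrdering U F ∧ ∀ j, Bs r (k + 1) (win F (k + 1) j) := by
  classical
  have hD : ({g, h₁, h₂} : Finset E) ⊆ U := by
    intro x hx
    simp only [mem_insert, mem_singleton] at hx
    rcases hx with rfl | rfl | rfl <;> assumption
  have hDc : ({g, h₁, h₂} : Finset E).card = 3 := by
    rw [Finset.card_insert_of_notMem (by simp [hgh₁, hgh₂]), Finset.card_insert_of_notMem (by simp [hh]),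
      Finset.card_singleton]
  have hU' : (U \ {g, h₁, h₂}).card = 3 * k := by
    have := Finset.card_sdiff_add_card_eq_card hD
    omega
  have hfm : ∀ j, f j ∈ U \ {g, h₁, h₂} := cyc_mem hf (by omega)
  obtain ⟨hper, himg⟩ := hf
  rw [hU'] at hper himg
  -- windows avoid the cut
  have hbase : ∀ j, ∀ d ∈ ({g, h₁, h₂} : Finset E), Bs r (k + 1) (insert d (win f k j)) := by
    intro j d hd
    have hsub : win f k j ⊆ U \ {g, h₁, h₂} := by
      intro x hx
      obtain ⟨a, _, _, rfl⟩ := mem_win hx
      exact hfm a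
    have h1 := hcut _ hsub g (by simp)
    have h2 := hcut _ hsub d hd
    have hgn : g ∉ win f k j := fun h => by
      have := hsub h; simp at this
    have hdn : d ∉ win f k j := fun h => by
      have := hsub h
      rw [mem_sdiff] at this
      exact this.2 hd
    have h3 := hw j
    refine ⟨?_, ?_⟩
    · rw [Finset.card_insert_of_notMem hdn]
      have := h3.1
      rw [Finset.card_insert_of_notMem hgn] at this
      exact this
    · rw [h2, ← h1]; exact h3.2
  set G : ℕ → E := fun m => if m = 0 then g else if m ≤ k then f (m - 1) else if m = k + 1 then h₁ else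
    if m ≤ 2 * k + 1 then f (m - 2) else if m = 2 * k + 2 then h₂ else f (m - 3) with hG
  set F : ℕ → E := fun j => G (j % (3 * k + 3)) with hF
  have Fp : ∀ j, F (j + (3 * k + 3)) = F j := by
    intro j; simp only [hF, Nat.add_mod_right]
  have Fl : ∀ m < 3 * k + 3, F m = G m := by
    intro m hm; simp only [hF]; rw [Nat.mod_eq_of_lt hm]
  have F0 : F 0 = g := by rw [Fl 0 (by omega)]; simp [hG]
  have Fa : ∀ a < k, F (a + 1) = f a := by
    intro a ha
    rw [Fl _ (by omega)]
    simp only [hG]
    rw [if_neg (by omega), if_pos (by omega)]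
    congr 1
  have Fb : F (k + 1) = h₁ := by
    rw [Fl _ (by omega)]
    simp only [hG]
    rw [if_neg (by omega), if_neg (by omega)]
    simp
  have Fc : ∀ a, k ≤ a → a < 2 * k → F (a + 2) = f a := by
    intro a ha ha2
    rw [Fl _ (by omega)]
    simp only [hG]
    rw [if_neg (by omega), if_neg (by omega), if_neg (by omega), if_pos (by omega)]
    congr 1
  have Fd : F (2 * k + 2) = h₂ := by
    rw [Fl _ (by omega)]
    simp only [hG]
    rw [if_neg (by omega), if_neg (by omega), if_neg (by omega), if_neg (by omega)]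
    simp
  have Fe : ∀ a, 2 * k ≤ a → a < 3 * k → F (a + 3) = f a := by
    intro a ha ha2
    rw [Fl _ (by omega)]
    simp only [hG]
    rw [if_neg (by omega), if_neg (by omega), if_neg (by omega), if_neg (by omega), if_neg (by omega)]
    congr 1
  have Ff : F (3 * k + 3) = g := by
    have := Fp 0; rw [zero_add] at this; rw [this, F0]
  have Fg : ∀ a, 3 * k ≤ a → a < 4 * k → F (a + 4) = f a := by
    intro a ha ha2
    have h1 := Fp (a - 3 * k + 1)
    rw [show a - 3 * k + 1 + (3 * k + 3) = a + 4 by omega, Fa (a - 3 * k) (by omega)] at h1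
    rw [h1]
    have := hper (a - 3 * k)
    rw [show a - 3 * k + 3 * k = a by omega] at this
    exact this.symm
  refine ⟨F, ?_, ?_⟩
  · apply cyc_of_surj hU F Fp
    intro x hx
    by_cases hxD : x ∈ ({g, h₁, h₂} : Finset E)
    · simp only [mem_insert, mem_singleton] at hxD
      rcases hxD with rfl | rfl | rfl
      · exact ⟨0, by omega, F0⟩
      · exact ⟨k + 1, by omega, Fb⟩
      · exact ⟨2 * k + 2, by omega, Fd⟩
    · have : x ∈ (Finset.range (3 * k)).image f := by
        rw [himg]; exact mem_sdiff.2 ⟨hx, hxD⟩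
      obtain ⟨a, ha, rfl⟩ := Finset.mem_image.1 this
      rw [mem_range] at ha
      by_cases c1 : a < k
      · exact ⟨a + 1, by omega, Fa a c1⟩
      · by_cases c2 : a < 2 * k
        · exact ⟨a + 2, by omega, Fc a (by omega) c2⟩
        · exact ⟨a + 3, by omega, Fe a (by omega) ha⟩
  · apply per_all (m := 3 * k + 3) (by omega) F Fp
    intro j hj
    by_cases c0 : j = 0
    · subst c0
      apply bs_win F 0 _ (hbase 0 g (by simp))
      intro x hx
      rcases Finset.mem_insert.1 hx with rfl | hx
      · exact ⟨0, by omega, by omega, F0⟩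
      · obtain ⟨a, h1, h2, rfl⟩ := mem_win hx
        exact ⟨a + 1, by omega, by omega, Fa a (by omega)⟩
    by_cases c1 : j ≤ k + 1
    · apply bs_win F j _ (hbase (j - 1) h₁ (by simp))
      intro x hx
      rcases Finset.mem_insert.1 hx with rfl | hx
      · exact ⟨k + 1, by omega, by omega, Fb⟩
      · obtain ⟨a, h1, h2, rfl⟩ := mem_win hx
        by_cases d1 : a < k
        · exact ⟨a + 1, by omega, by omega, Fa a d1⟩
        · exact ⟨a + 2, by omega, by omega, Fc a (by omega) (by omega)⟩
    by_cases c2 : j ≤ 2 * k + 2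
    · apply bs_win F j _ (hbase (j - 2) h₂ (by simp))
      intro x hx
      rcases Finset.mem_insert.1 hx with rfl | hx
      · exact ⟨2 * k + 2, by omega, by omega, Fd⟩
      · obtain ⟨a, h1, h2, rfl⟩ := mem_win hx
        by_cases d1 : a < 2 * k
        · exact ⟨a + 2, by omega, by omega, Fc a (by omega) d1⟩
        · exact ⟨a + 3, by omega, by omega, Fe a (by omega) (by omega)⟩
    · apply bs_win F j _ (hbase (j - 3) g (by simp))
      intro x hx
      rcases Finset.mem_insert.1 hx with rfl | hx
      · exact ⟨3 * k + 3, by omega, by omega, Ff⟩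
      · obtain ⟨a, h1, h2, rfl⟩ := mem_win hx
        by_cases d1 : a < 3 * k
        · exact ⟨a + 3, by omega, by omega, Fe a (by omega) d1⟩
        · exact ⟨a + 4, by omega, by omega, Fg a (by omega) (by omega)⟩

/-- four element cut; `e` is one of the two edges of the third tree in the cut, `g` is contracted -/
theorem red4 {r : Finset E → ℕ} (hr : RankFn r) (h0 : r ∅ = 0) {k : ℕ} (hk : 1 ≤ k) (U : Finset E) (e g h₁ h₂ : E)
    (hU : U.card = 3 * k + 3)
    (he : e ∈ U) (hg : g ∈ U) (hh₁ : h₁ ∈ U) (hh₂ : h₂ ∈ U) (hgh₁ : g ≠ h₁) (hgh₂ : g ≠ h₂) (hh : h₁ ≠ h₂)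
    (heg : e ≠ g) (heh₁ : e ≠ h₁) (heh₂ : e ≠ h₂)
    (hcut : ∀ X ⊆ U \ {e, g, h₁, h₂}, ∀ d ∈ ({e, g, h₁, h₂} : Finset E), r (insert d X) = r X + 1)
    (f₀ : ℕ → E) (hf₀ : IsCyclicOrdering (U \ {g, h₁, h₂}) f₀)
    (hw₀ : ∀ j, Bs r (k + 1) (insert g (win f₀ k j))) :
    ∃ F : ℕ → E, IsCyclicOrdering U F ∧ ∀ j, Bs r (k + 1) (win F (k + 1) j) := by
  classical
  have hD : ({g, h₁, h₂} : Finset E) ⊆ U := by
    intro x hx
    simp only [mem_insert, mem_singleton] at hx
    rcases hx with rfl | rfl | rfl <;> assumption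
  have hDc : ({g, h₁, h₂} : Finset E).card = 3 := by
    rw [Finset.card_insert_of_notMem (by simp [hgh₁, hgh₂]), Finset.card_insert_of_notMem (by simp [hh]),
      Finset.card_singleton]
  have hU' : (U \ {g, h₁, h₂}).card = 3 * k := by
    have := Finset.card_sdiff_add_card_eq_card hD
    omega
  -- rotate
  obtain ⟨f, hfm, hper, himg, hinj, hfe, hw⟩ : ∃ f : ℕ → E, (∀ j, f j ∈ U \ {g, h₁, h₂}) ∧
      (∀ j, f (j + 3 * k) = f j) ∧ (∀ x ∈ U \ {g, h₁, h₂}, ∃ i < 3 * k, f i = x) ∧
      (∀ i, 0 < i → i < 3 * k → f i ≠ e) ∧ f 0 = e ∧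
      ∀ j, Bs r (k + 1) (insert g (win f k j)) := by
    have hm0 := cyc_mem hf₀ (by omega)
    obtain ⟨hper0, himg0⟩ := hf₀
    rw [hU'] at hper0 himg0
    have he' : e ∈ U \ {g, h₁, h₂} := by
      rw [mem_sdiff]; refine ⟨he, ?_⟩; simp [heg, heh₁, heh₂]
    have : e ∈ (Finset.range (3 * k)).image f₀ := by rw [himg0]; exact he'
    obtain ⟨j0, hj0, hj0e⟩ := Finset.mem_image.1 this
    rw [mem_range] at hj0
    have hinj0 : Set.InjOn f₀ (Finset.range (3 * k) : Set ℕ) := by
      apply Finset.injOn_of_card_image_eq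
      rw [himg0, Finset.card_range, hU']
    refine ⟨fun i => f₀ (j0 + i), fun j => hm0 _, ?_, ?_, ?_, hj0e, ?_⟩
    · intro j
      show f₀ (j0 + (j + 3 * k)) = f₀ (j0 + j)
      rw [← add_assoc, hper0]
    · intro x hx
      rw [← himg0, mem_image] at hx
      obtain ⟨i, hi, rfl⟩ := hx
      rw [mem_range] at hi
      by_cases c : j0 ≤ i
      · exact ⟨i - j0, by omega, by show f₀ (j0 + (i - j0)) = f₀ i; congr 1; omega⟩
      · refine ⟨i + 3 * k - j0, by omega, ?_⟩
        show f₀ (j0 + (i + 3 * k - j0)) = f₀ i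
        rw [show j0 + (i + 3 * k - j0) = i + 3 * k by omega, hper0]
    · intro i h0 hi heq
      have heq' : f₀ (j0 + i) = f₀ j0 := by rw [hj0e]; exact heq
      by_cases c : j0 + i < 3 * k
      · have := hinj0 (by simp; omega) (by simp; omega) heq'
        omega
      · have h1 := hper0 (j0 + i - 3 * k)
        rw [show j0 + i - 3 * k + 3 * k = j0 + i by omega] at h1
        rw [h1] at heq'
        have := hinj0 (by simp; omega) (by simp; omega) heq'
        omega
    · intro j
      have : win (fun i => f₀ (j0 + i)) k j = win f₀ k (j0 + j) := by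
        unfold win
        apply Finset.image_congr
        intro i _
        show f₀ (j0 + (j + i)) = f₀ (j0 + j + i)
        rw [add_assoc]
      rw [this]; exact hw₀ _
  -- the windows of `f` without `e`
  have hbase : ∀ j, 1 ≤ j → j ≤ 2 * k → ∀ d ∈ ({e, g, h₁, h₂} : Finset E), Bs r (k + 1) (insert d (win f k j)) := by
    intro j hj1 hj2 d hd
    have hsub : win f k j ⊆ U \ {e, g, h₁, h₂} := by
      intro x hx
      obtain ⟨a, h1, h2, rfl⟩ := mem_win hx
      have h3 := hfm a
      have h4 := hinj a (by omega) (by omega)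
      simp only [mem_sdiff, mem_insert, mem_singleton] at h3 ⊢
      tauto
    have h1 := hcut _ hsub g (by simp)
    have h2 := hcut _ hsub d hd
    have hgn : g ∉ win f k j := fun h => by
      have := hsub h; simp at this
    have hdn : d ∉ win f k j := fun h => by
      have := hsub h
      rw [mem_sdiff] at this
      exact this.2 hd
    have h3 := hw j
    refine ⟨?_, ?_⟩
    · rw [Finset.card_insert_of_notMem hdn]
      have := h3.1
      rw [Finset.card_insert_of_notMem hgn] at this
      exact this
    · rw [h2, ← h1]; exact h3.2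
  -- the choice of the order of `e` and `g`
  set X : Finset E := (Finset.Ico (2 * k + 1) (3 * k)).image f with hX
  have hXs : X ⊆ U \ {e, g, h₁, h₂} := by
    intro x hx
    obtain ⟨a, ha, rfl⟩ := Finset.mem_image.1 hx
    rw [mem_Ico] at ha
    have h3 := hfm a
    have h4 := hinj a (by omega) (by omega)
    simp only [mem_sdiff, mem_insert, mem_singleton] at h3 ⊢
    tauto
  have hXw : win f k (2 * k + 1) = insert e X := by
    ext x
    simp only [win, hX, mem_image, mem_range, mem_insert, mem_Ico]
    constructor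
    · rintro ⟨i, hi, rfl⟩
      by_cases c : i = k - 1
      · left
        rw [show 2 * k + 1 + i = 0 + 3 * k by omega, hper, hfe]
      · right; exact ⟨2 * k + 1 + i, by omega, rfl⟩
    · rintro (rfl | ⟨a, ha, rfl⟩)
      · refine ⟨k - 1, by omega, ?_⟩
        rw [show 2 * k + 1 + (k - 1) = 0 + 3 * k by omega, hper, hfe]
      · refine ⟨a - (2 * k + 1), by omega, ?_⟩
        congr 1; omega
  have hchoice : ∃ p q : E, ({p, q} : Finset E) = {e, g} ∧ Bs r (k + 1) (insert h₂ (insert p X)) := by
    have hb := hw (2 * k + 1)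
    rw [hXw] at hb
    have heX : e ∉ X := fun h => by have := hXs h; simp at this
    have hgX : g ∉ X := fun h => by have := hXs h; simp at this
    have hhX : h₂ ∉ X := fun h => by have := hXs h; simp at this
    have hc : X.card + 2 = k + 1 := by
      have := hb.1
      rw [Finset.card_insert_of_notMem (by simp only [mem_insert]; tauto), Finset.card_insert_of_notMem heX] at this
      omega
    have e1 := hcut X hXs e (by simp)
    have e2 := hcut X hXs g (by simp)
    have e3 := hcut X hXs h₂ (by simp)
    have s1 := hr.step (insert e X) g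
    have hle : r X ≤ X.card + r ∅ := by
      have := hr.add ∅ X
      rw [Finset.empty_union] at this
      omega
    have s2 := hr.submod (insert h₂ (insert e X)) (insert h₂ (insert g X))
    have m1 : r (insert g (insert e X)) ≤ r (insert h₂ (insert e X) ∪ insert h₂ (insert g X)) := by
      apply hr.mono
      intro x hx
      simp only [mem_insert, mem_union] at hx ⊢
      tauto
    have m2 : r (insert h₂ X) ≤ r (insert h₂ (insert e X) ∩ insert h₂ (insert g X)) := by
      apply hr.mono
      intro x hx
      simp only [mem_insert, mem_inter] at hx ⊢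
      tauto
    have u1 := hr.step (insert e X) h₂
    have u2 := hr.step (insert g X) h₂
    have v1 := hr.mono _ _ (Finset.subset_insert h₂ (insert e X))
    have hb2 := hb.2
    by_cases c : r (insert h₂ (insert e X)) = k + 1
    · refine ⟨e, g, rfl, ?_, c⟩
      rw [Finset.card_insert_of_notMem (by simp only [mem_insert]; tauto), Finset.card_insert_of_notMem heX]
      omega
    · refine ⟨g, e, by rw [Finset.pair_comm], ?_, ?_⟩
      · rw [Finset.card_insert_of_notMem (by simp only [mem_insert]; tauto), Finset.card_insert_of_notMem hgX]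
        omega
      · omega
  obtain ⟨p, q, hpq, hpX⟩ := hchoice
  have hpm : p = e ∨ p = g := by
    have : p ∈ ({e, g} : Finset E) := by rw [← hpq]; simp
    simpa using this
  have hqm : q = e ∨ q = g := by
    have : q ∈ ({e, g} : Finset E) := by rw [← hpq]; simp
    simpa using this
  have hem : e = p ∨ e = q := by
    have : e ∈ ({p, q} : Finset E) := by rw [hpq]; simp
    simpa using this
  have hgm : g = p ∨ g = q := by
    have : g ∈ ({p, q} : Finset E) := by rw [hpq]; simp
    simpa using this
  set G : ℕ → E := fun m => if m = 0 then p else if m = 1 then q else if m ≤ k + 1 then f (m - 1) else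
    if m = k + 2 then h₁ else if m ≤ 2 * k + 2 then f (m - 2) else if m = 2 * k + 3 then h₂ else f (m - 3) with hG
  set F : ℕ → E := fun j => G (j % (3 * k + 3)) with hF
  have Fp : ∀ j, F (j + (3 * k + 3)) = F j := by
    intro j; simp only [hF, Nat.add_mod_right]
  have Fl : ∀ m < 3 * k + 3, F m = G m := by
    intro m hm; simp only [hF]; rw [Nat.mod_eq_of_lt hm]
  have F0 : F 0 = p := by rw [Fl 0 (by omega)]; simp [hG]
  have F1 : F 1 = q := by rw [Fl 1 (by omega)]; simp [hG]
  have Fa : ∀ a, 1 ≤ a → a ≤ k → F (a + 1) = f a := by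
    intro a ha0 ha
    rw [Fl _ (by omega)]
    simp only [hG]
    rw [if_neg (by omega), if_neg (by omega), if_pos (by omega)]
    congr 1
  have Fb : F (k + 2) = h₁ := by
    rw [Fl _ (by omega)]
    simp only [hG]
    rw [if_neg (by omega), if_neg (by omega), if_neg (by omega)]
    simp
  have Fc : ∀ a, k + 1 ≤ a → a ≤ 2 * k → F (a + 2) = f a := by
    intro a ha ha2
    rw [Fl _ (by omega)]
    simp only [hG]
    rw [if_neg (by omega), if_neg (by omega), if_neg (by omega), if_neg (by omega), if_pos (by omega)]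
    congr 1
  have Fd : F (2 * k + 3) = h₂ := by
    by_cases hk1 : 2 * k + 3 < 3 * k + 3
    · rw [Fl _ hk1]
      simp only [hG]
      rw [if_neg (by omega), if_neg (by omega), if_neg (by omega), if_neg (by omega), if_neg (by omega)]
      simp
    · omega
  have Fe : ∀ a, 2 * k + 1 ≤ a → a < 3 * k → F (a + 3) = f a := by
    intro a ha ha2
    rw [Fl _ (by omega)]
    simp only [hG]
    rw [if_neg (by omega), if_neg (by omega), if_neg (by omega), if_neg (by omega), if_neg (by omega),
      if_neg (by omega)]
    congr 1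
  have Ff : F (3 * k + 3) = p := by
    have := Fp 0; rw [zero_add] at this; rw [this, F0]
  have Fg : F (3 * k + 4) = q := by
    have := Fp 1
    rw [show 1 + (3 * k + 3) = 3 * k + 4 by omega] at this
    rw [this, F1]
  have Fh : ∀ a, 3 * k + 1 ≤ a → a ≤ 4 * k → F (a + 4) = f a := by
    intro a ha ha2
    have h1 := Fp (a - 3 * k + 1)
    rw [show a - 3 * k + 1 + (3 * k + 3) = a + 4 by omega, Fa (a - 3 * k) (by omega) (by omega)] at h1
    rw [h1]
    have := hper (a - 3 * k)
    rw [show a - 3 * k + 3 * k = a by omega] at this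
    exact this.symm
  have hqD : q ∈ ({e, g, h₁, h₂} : Finset E) := by
    rcases hqm with h | h <;> simp [h]
  refine ⟨F, ?_, ?_⟩
  · apply cyc_of_surj hU F Fp
    intro x hx
    by_cases hxD : x ∈ ({g, h₁, h₂} : Finset E)
    · simp only [mem_insert, mem_singleton] at hxD
      rcases hxD with hx1 | hx1 | hx1
      · rcases hgm with h | h
        · exact ⟨0, by omega, by rw [F0, hx1, h]⟩
        · exact ⟨1, by omega, by rw [F1, hx1, h]⟩
      · exact ⟨k + 2, by omega, by rw [Fb, hx1]⟩
      · exact ⟨2 * k + 3, by omega, by rw [Fd, hx1]⟩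
    · obtain ⟨a, ha, rfl⟩ := himg x (mem_sdiff.2 ⟨hx, hxD⟩)
      by_cases c0 : a = 0
      · subst c0
        rw [hfe]
        rcases hem with h | h
        · exact ⟨0, by omega, by rw [F0, h]⟩
        · exact ⟨1, by omega, by rw [F1, h]⟩
      by_cases c1 : a ≤ k
      · exact ⟨a + 1, by omega, Fa a (by omega) c1⟩
      · by_cases c2 : a ≤ 2 * k
        · exact ⟨a + 2, by omega, Fc a (by omega) c2⟩
        · exact ⟨a + 3, by omega, Fe a (by omega) ha⟩
  · apply per_all (m := 3 * k + 3) (by omega) F Fp
    intro j hj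
    by_cases c0 : j = 0
    · subst c0
      apply bs_win F 0 _ (hw 0)
      intro x hx
      rcases Finset.mem_insert.1 hx with rfl | hx
      · rcases hgm with h | h
        · exact ⟨0, by omega, by omega, by rw [F0, h]⟩
        · exact ⟨1, by omega, by omega, by rw [F1, h]⟩
      · obtain ⟨a, h1, h2, rfl⟩ := mem_win hx
        by_cases ca : a = 0
        · subst ca
          rw [hfe]
          rcases hem with h | h
          · exact ⟨0, by omega, by omega, by rw [F0, h]⟩
          · exact ⟨1, by omega, by omega, by rw [F1, h]⟩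
        · exact ⟨a + 1, by omega, by omega, Fa a (by omega) (by omega)⟩
    by_cases c1 : j = 1
    · subst c1
      apply bs_win F 1 _ (hbase 1 le_rfl (by omega) q hqD)
      intro x hx
      rcases Finset.mem_insert.1 hx with hx | hx
      · exact ⟨1, by omega, by omega, by rw [F1, hx]⟩
      · obtain ⟨a, h1, h2, rfl⟩ := mem_win hx
        exact ⟨a + 1, by omega, by omega, Fa a (by omega) (by omega)⟩
    by_cases c2 : j ≤ k + 2
    · apply bs_win F j _ (hbase (j - 1) (by omega) (by omega) h₁ (by simp))
      intro x hx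
      rcases Finset.mem_insert.1 hx with hx | hx
      · exact ⟨k + 2, by omega, by omega, by rw [Fb, hx]⟩
      · obtain ⟨a, h1, h2, rfl⟩ := mem_win hx
        by_cases d1 : a ≤ k
        · exact ⟨a + 1, by omega, by omega, Fa a (by omega) d1⟩
        · exact ⟨a + 2, by omega, by omega, Fc a (by omega) (by omega)⟩
    by_cases c3 : j ≤ 2 * k + 2
    · apply bs_win F j _ (hbase (j - 2) (by omega) (by omega) h₂ (by simp))
      intro x hx
      rcases Finset.mem_insert.1 hx with hx | hx
      · exact ⟨2 * k + 3, by omega, by omega, by rw [Fd, hx]⟩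
      · obtain ⟨a, h1, h2, rfl⟩ := mem_win hx
        by_cases d1 : a ≤ 2 * k
        · exact ⟨a + 2, by omega, by omega, Fc a (by omega) d1⟩
        · exact ⟨a + 3, by omega, by omega, Fe a (by omega) (by omega)⟩
    by_cases c4 : j = 2 * k + 3
    · subst c4
      apply bs_win F _ _ hpX
      intro x hx
      rcases Finset.mem_insert.1 hx with hx | hx
      · exact ⟨2 * k + 3, by omega, by omega, by rw [Fd, hx]⟩
      · rcases Finset.mem_insert.1 hx with hx | hx
        · exact ⟨3 * k + 3, by omega, by omega, by rw [Ff, hx]⟩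
        · obtain ⟨a, ha, rfl⟩ := Finset.mem_image.1 hx
          rw [mem_Ico] at ha
          exact ⟨a + 3, by omega, by omega, Fe a (by omega) (by omega)⟩
    · apply bs_win F j _ (hw (j - 3))
      intro x hx
      rcases Finset.mem_insert.1 hx with hx | hx
      · rcases hgm with h | h
        · exact ⟨3 * k + 3, by omega, by omega, by rw [Ff, hx, h]⟩
        · exact ⟨3 * k + 4, by omega, by omega, by rw [Fg, hx, h]⟩
      · obtain ⟨a, h1, h2, rfl⟩ := mem_win hx
        by_cases d1 : a < 3 * k
        · exact ⟨a + 3, by omega, by omega, Fe a (by omega) d1⟩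
        · by_cases d2 : a = 3 * k
          · subst d2
            have hf3 : f (3 * k) = e := by
              have := hper 0
              rw [zero_add] at this
              rw [this, hfe]
            rw [hf3]
            rcases hem with h | h
            · exact ⟨3 * k + 3, by omega, by omega, by rw [Ff, h]⟩
            · exact ⟨3 * k + 4, by omega, by omega, by rw [Fg, h]⟩
          · exact ⟨a + 4, by omega, by omega, Fh a (by omega) (by omega)⟩

end Pool.Agent.H25.CT
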